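import Pool.Agent.LGAlt.Main
import Pool.Agent.LGAlt2.Final
import Pool.Agent.LGAlt2.Isotopy

/-!
# Sign pattern and support of the Links–Gould invariants of alternating links

The definitions are in `Pool/Agent/LGAlt/Defs.lean`.  `Pool/Agent/LGAlt2/Isotopy.lean` contains checks of the
definition of the invariant which are not needed for the theorem: `LG` does not change under the planar
isotopies and Reidemeister moves of oriented tangle diagrams (`LG_move`), the eigenvalues of the R-matrix are
`t₀`, `t₁`, `-1` (`cubic`), and the values for the Hopf link and the trefoil (`LG_hopf`, `LG_trefoil`).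
-/

namespace Pool.Agent.Results.MP_6ede4d_gt.SignAndSupport

open LGAlt

/-- For every alternating oriented link diagram with `μ` components, the Links–Gould invariant is a
Laurent polynomial in `t₀ = a²`, `t₁ = b²`, its coefficients `a_ij` satisfy
`(-1)^(μ+i+j+1) a_ij ≥ 0`, and they have no interior zeros: every lattice point of the convex hull of
the support lies in the support. -/
theorem result (w : List Piece) (μ : ℕ) (hd : IsDiagram w μ) (ha : IsAlternating w) :
    (∀ p q : ℤ, (LG w).coeff (p, q) ≠ 0 → Even p ∧ Even q) ∧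
    (∀ i j : ℤ,
      0 ≤ (((-1 : ℤˣ) ^ ((μ : ℤ) + i + j + 1) : ℤˣ) : ℤ) * (LG w).coeff (2 * i, 2 * j)) ∧
    ∀ i j : ℤ,
      ((i : ℝ), (j : ℝ)) ∈ convexHull ℝ
        {v : ℝ × ℝ | ∃ k l : ℤ, (LG w).coeff (2 * k, 2 * l) ≠ 0 ∧ v = ((k : ℝ), (l : ℝ))} →
      (LG w).coeff (2 * i, 2 * j) ≠ 0 :=
  ⟨(LG_sign hd ha).1, (LG_sign hd ha).2, fun i j h => no_interior_zeros hd ha i j h⟩

end Pool.Agent.Results.MP_6ede4d_gt.SignAndSupport
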